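import Pool.Agent.H421Z.Red.Main

set_option autoImplicit false

namespace Pool.Agent.Results.MP_65e938_an.ReductiveNormal

universe u

variable {H : Type u} [NormedAddCommGroup H] [InnerProductSpace ℂ H] [CompleteSpace H]

/-- A quasi-affinity: an injective operator with dense range. -/
def QuasiAffinity (X : H →L[ℂ] H) : Prop := Function.Injective X ∧ DenseRange X

/-- Quasi-similarity of two operators. -/
def QuasiSimilar (A B : H →L[ℂ] H) : Prop :=
  ∃ X Y : H →L[ℂ] H, QuasiAffinity X ∧ QuasiAffinity Y ∧ X * A = B * X ∧ A * Y = Y * B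

/-- Every closed invariant subspace of `A` reduces `A`. -/
def Reductive (A : H →L[ℂ] H) : Prop :=
  ∀ M : Submodule ℂ H, IsClosed (M : Set H) → (∀ x ∈ M, A x ∈ M) →
    ∀ x ∈ M, ContinuousLinearMap.adjoint A x ∈ M

/-- A reductive operator which is quasi-similar to a normal operator is normal. -/
theorem result (H : Type u) [NormedAddCommGroup H] [InnerProductSpace ℂ H] [CompleteSpace H]
    (A N : H →L[ℂ] H) (hN : IsStarNormal N) (hq : QuasiSimilar A N) (hr : Reductive A) :
    IsStarNormal A := by
  obtain ⟨X, Y, hX, hY, h1, h2⟩ := hq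
  exact Pool.Agent.H421Z.Red.main A N X Y hN hX.1 hY.2 h1 h2 hr

end Pool.Agent.Results.MP_65e938_an.ReductiveNormal
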